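import Pool.Agent.Helper44.GH.ABS

/-! Module ABS0: the abstract inequality, normalised. -/

open Finset MeasureTheory Filter Topology Matrix
open scoped ENNReal ContDiff

namespace Pool.Agent.Helper44.GH

open Pool.Agent.Helper44.GF Pool.Agent.Helper44.GN

theorem abs0_tr {a b : ℕ} (U X : Matrix (Fin a) (Fin b) ℝ) :
    Matrix.trace (Uᵀ * X) = ∑ j, ∑ i, U i j * X i j := by
  simp only [Matrix.trace, Matrix.diag, Matrix.mul_apply, Matrix.transpose_apply]

theorem abs0_trc {m : ℕ} (K U : Matrix (Fin m) (Fin m) ℝ) :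
    Matrix.trace (Uᵀ * K * U) = ∑ j, (fun i => U i j) ⬝ᵥ K *ᵥ (fun i => U i j) := by
  rw [Matrix.mul_assoc, abs0_tr]
  refine Finset.sum_congr rfl fun j _ => ?_
  simp only [dotProduct, Matrix.mulVec, Matrix.mul_apply]

theorem abs0_sq {m : ℕ} (N : Matrix (Fin m) (Fin m) ℝ) :
    -Matrix.trace (N * N) ≤ ∑ j, ∑ i, N i j * N i j := by
  have h1 : Matrix.trace (N * N) = ∑ j, ∑ i, N j i * N i j := by
    simp only [Matrix.trace, Matrix.diag, Matrix.mul_apply]
  have h2 : ∑ j, ∑ i, N i j * N i j = ∑ j, ∑ i, N j i * N j i := Finset.sum_comm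
  have h3 : 0 ≤ ∑ j, ∑ i, (N j i + N i j) ^ 2 :=
    Finset.sum_nonneg fun j _ => Finset.sum_nonneg fun i _ => sq_nonneg _
  have h4 : ∑ j, ∑ i, (N j i + N i j) ^ 2
      = (∑ j, ∑ i, N j i * N j i) + 2 * (∑ j, ∑ i, N j i * N i j)
        + ∑ j, ∑ i, N i j * N i j := by
    rw [Finset.mul_sum, ← Finset.sum_add_distrib, ← Finset.sum_add_distrib]
    refine Finset.sum_congr rfl fun j _ => ?_
    rw [Finset.mul_sum, ← Finset.sum_add_distrib, ← Finset.sum_add_distrib]
    refine Finset.sum_congr rfl fun i _ => ?_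
    ring
  rw [h4, ← h2, ← h1] at h3
  linarith

theorem st_ABS0 (h1 : ST_ABP1) (h2 : ST_ABP2) (h3 : ST_ABP3) (hE : ST_ABE) (hI : ST_INV)
    (hC : ST_CNT) : ST_ABS0 := by
  intro n m P a b ρ V Z R hN hB hZ
  have := R.pr
  have hρ : ρ ∈ Og n := R.r0
  have hV : Function.Injective V.mulVec := (h1 n m V ρ ρ hρ hρ hN).1
  obtain ⟨-, -, E3, E4, E5, E6, E7⟩ := hE n m P a b ρ V R hN
  set N : Matrix (Fin m) (Fin m) ℝ := TT V Z ρ with hNd
  obtain ⟨Z', hZ'⟩ : ∃ Z' : Matrix (Fin n) (Fin m) ℝ, Z' = Z - V * N := ⟨_, rfl⟩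
  have hZZ : Z = Z' + V * N := by rw [hZ']; abel
  have hT0 : TT V Z' ρ = 0 := by
    have e1 : TT V Z' ρ = TT V Z ρ - TT V V ρ * N := by
      rw [hZ']
      unfold TT
      rw [Matrix.mul_sub, Matrix.mul_assoc (Vᵀ * Matrix.diagonal ρ) V N]
    rw [e1, hN, Matrix.one_mul, ← hNd, sub_self]
  have hae := abs_ae R
  -- the shift
  have hsh : ∀ᵐ y ∂P, BB V Z y = BB V Z' y + N ∧ sgm V Z y = sgm V Z' y := by
    filter_upwards [hae] with y hy
    have h := (hI n m V Z' hV y hy).1 N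
    rw [← hZZ] at h
    exact h
  have hInt : ∀ (W : Matrix (Fin n) (Fin m) ℝ) i j, Integrable (fun y => BB V W y i j) P :=
    fun W i j => abs_int R ((hC n m V W hV).2.2.2.1 i j)
  have hBi : ∀ i j, ∫ y, BB V Z' y i j ∂P = -N i j := by
    intro i j
    have e1 : ∫ y, BB V Z y i j ∂P = ∫ y, (BB V Z' y i j + N i j) ∂P := by
      refine integral_congr_ae ?_
      filter_upwards [hsh] with y hy
      rw [hy.1, Matrix.add_apply]
    rw [hB i j, integral_add (hInt Z' i j) (integrable_const _), integral_const,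
      probReal_univ, one_smul] at e1
    linarith
  -- continuity
  have cK := (hC n m V Z' hV).2.2.1
  have cB := (hC n m V Z' hV).2.2.2.1
  have cB0 := (hC n m V Z hV).2.2.2.1
  have cS := (hC n m V Z' hV).2.2.2.2
  have cS0 := (hC n m V Z hV).2.2.2.2
  have cq : ∀ w : Fin m → ℝ, ContinuousOn (fun y => w ⬝ᵥ (TT V V y)⁻¹ *ᵥ w) (Og n) := by
    intro w
    simp only [dotProduct, Matrix.mulVec]
    refine continuousOn_finsetSum _ fun i _ => continuousOn_const.mul ?_
    exact continuousOn_finsetSum _ fun j _ => (cK i j).mul continuousOn_const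
  have cy : ∀ i : Fin n, ContinuousOn (fun y : Fin n → ℝ => (y i - ρ i) ^ 2 / y i) (Og n) := by
    intro i
    refine ContinuousOn.div ?_ (continuous_apply i).continuousOn fun y hy => (hy i).ne'
    exact (((continuous_apply i).sub continuous_const).pow 2).continuousOn
  have cr : ∀ i : Fin n, ContinuousOn (fun y : Fin n → ℝ => ρ i ^ 2 / y i) (Og n) := by
    intro i
    exact ContinuousOn.div continuousOn_const (continuous_apply i).continuousOn
      fun y hy => (hy i).ne'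
  have ctr : ∀ (W : Matrix (Fin n) (Fin m) ℝ),
      (∀ i j, ContinuousOn (fun y => BB V W y i j) (Og n)) →
      ContinuousOn (fun y => Matrix.trace (BB V W y)) (Og n) ∧
      ContinuousOn (fun y => Matrix.trace (BB V W y * BB V W y)) (Og n) := by
    intro W hW
    constructor
    · simp only [Matrix.trace, Matrix.diag]
      exact continuousOn_finsetSum _ fun i _ => hW i i
    · simp only [Matrix.trace, Matrix.diag, Matrix.mul_apply]
      exact continuousOn_finsetSum _ fun i _ =>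
        continuousOn_finsetSum _ fun j _ => (hW i j).mul (hW j i)
  obtain ⟨S, hS⟩ : ∃ S : ℝ, S = ∑ i, ρ i * (Z' i ⬝ᵥ Z' i) := ⟨_, rfl⟩
  have hzz : ∀ i, 0 ≤ Z' i ⬝ᵥ Z' i := fun i => by
    simp only [dotProduct]
    exact Finset.sum_nonneg fun j _ => mul_self_nonneg _
  have hS0 : 0 ≤ S := by
    rw [hS]
    exact Finset.sum_nonneg fun i _ => mul_nonneg (hρ i).le (hzz i)
  -- (a)
  have hA : ∫ y, Matrix.trace (BB V Z' y * BB V Z' y) ∂P ≤ 24804 / 100000 * S := by
    have i1 : ∀ i : Fin n, Integrable (fun y : Fin n → ℝ =>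
        (y i - ρ i) ^ 2 / y i * (Z' i ⬝ᵥ (TT V V y)⁻¹ *ᵥ Z' i)) P := fun i =>
      abs_int R ((cy i).mul (cq (Z' i)))
    have e1 : ∫ y, Matrix.trace (BB V Z' y * BB V Z' y) ∂P
        ≤ ∫ y, ∑ i, (y i - ρ i) ^ 2 / y i * (Z' i ⬝ᵥ (TT V V y)⁻¹ *ᵥ Z' i) ∂P := by
      refine integral_mono_ae (abs_int R (ctr Z' cB).2)
        (integrable_finsetSum _ fun i _ => i1 i) ?_
      filter_upwards [hae] with y hy
      exact (h2 n m V Z' y ρ hy hρ hV hT0).1
    rw [integral_finsetSum _ fun i _ => i1 i] at e1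
    refine e1.trans ?_
    rw [hS, Finset.mul_sum]
    refine Finset.sum_le_sum fun i _ => ?_
    refine (E7 i (Z' i)).trans (le_of_eq ?_)
    ring
  -- (b)
  obtain ⟨Q, hQ⟩ : ∃ Q : ℝ, Q = ∑ j, ∑ i, N i j * N i j := ⟨_, rfl⟩
  have hb : 2 * Q ≤ Q + 76 / 1000 * S := by
    have i1 : ∀ j : Fin m, Integrable (fun y : Fin n → ℝ =>
        (fun i => N i j) ⬝ᵥ (TT V V y)⁻¹ *ᵥ (fun i => N i j)) P := fun j =>
      abs_int R (cq _)
    have i2 : ∀ i : Fin n, Integrable (fun y : Fin n → ℝ =>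
        (y i - ρ i) ^ 2 / y i * (Z' i ⬝ᵥ Z' i)) P := fun i =>
      abs_int R ((cy i).mul continuousOn_const)
    have i3 : ∀ j i : Fin m, Integrable (fun y : Fin n → ℝ => N i j * BB V Z' y i j) P :=
      fun j i => (hInt Z' i j).const_mul _
    have e1 : ∫ y, -2 * (∑ j, ∑ i, N i j * BB V Z' y i j) ∂P
        ≤ ∫ y, ((∑ j, (fun i => N i j) ⬝ᵥ (TT V V y)⁻¹ *ᵥ (fun i => N i j))
          + ∑ i, (y i - ρ i) ^ 2 / y i * (Z' i ⬝ᵥ Z' i)) ∂P := by
      refine integral_mono_ae ?_ ?_ ?_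
      · exact (integrable_finsetSum _ fun j _ =>
          integrable_finsetSum _ fun i _ => i3 j i).const_mul _
      · exact (integrable_finsetSum _ fun j _ => i1 j).add
          (integrable_finsetSum _ fun i _ => i2 i)
      · filter_upwards [hae] with y hy
        have h := (h2 n m V Z' y ρ hy hρ hV hT0).2 N
        rw [abs0_tr, abs0_trc] at h
        exact h
    rw [integral_const_mul, integral_finsetSum _ fun j _ =>
      integrable_finsetSum _ fun i _ => i3 j i,
      integral_add (integrable_finsetSum _ fun j _ => i1 j)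
        (integrable_finsetSum _ fun i _ => i2 i),
      integral_finsetSum _ fun j _ => i1 j, integral_finsetSum _ fun i _ => i2 i] at e1
    have e2 : ∑ j, ∫ y, (∑ i, N i j * BB V Z' y i j) ∂P = -Q := by
      rw [hQ, ← Finset.sum_neg_distrib]
      refine Finset.sum_congr rfl fun j _ => ?_
      rw [integral_finsetSum _ fun i _ => i3 j i, ← Finset.sum_neg_distrib]
      refine Finset.sum_congr rfl fun i _ => ?_
      rw [integral_const_mul, hBi i j]
      ring
    have e3 : ∑ j, ∫ y, (fun i => N i j) ⬝ᵥ (TT V V y)⁻¹ *ᵥ (fun i => N i j) ∂P ≤ Q := by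
      rw [hQ]
      refine Finset.sum_le_sum fun j _ => ?_
      exact E4 (fun i => N i j)
    have e4 : ∑ i, ∫ y, (y i - ρ i) ^ 2 / y i * (Z' i ⬝ᵥ Z' i) ∂P ≤ 76 / 1000 * S := by
      rw [hS, Finset.mul_sum]
      refine Finset.sum_le_sum fun i _ => ?_
      rw [integral_mul_const]
      refine (mul_le_mul_of_nonneg_right (E3 i) (hzz i)).trans (le_of_eq ?_)
      ring
    rw [e2] at e1
    linarith
  -- (c)
  have hc : 8034 / 10000 * S ≤ ∫ y, sgm V Z' y ∂P := by
    obtain ⟨c, hcd⟩ : ∃ c : ℝ, c = 1 / (1076 / 1000 * (1075 / 1000)) := ⟨_, rfl⟩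
    have hc0 : 0 < c := by rw [hcd]; norm_num
    have i1 : ∀ i : Fin n, Integrable (fun y : Fin n → ℝ =>
        ρ i * (Z' i ⬝ᵥ (TT V V y)⁻¹ *ᵥ Z' i)) P := fun i =>
      abs_int R (continuousOn_const.mul (cq (Z' i)))
    have i2 : ∀ i : Fin n, Integrable (fun y : Fin n → ℝ =>
        ρ i ^ 2 / y i * (Z' i ⬝ᵥ (TT V V y)⁻¹ *ᵥ Z' i)) P := fun i =>
      abs_int R ((cr i).mul (cq (Z' i)))
    have i3 : Integrable (fun y : Fin n → ℝ =>
        2 * c * (∑ i, ρ i * (Z' i ⬝ᵥ (TT V V y)⁻¹ *ᵥ Z' i))) P :=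
      (integrable_finsetSum _ fun i _ => i1 i).const_mul _
    have i4 : Integrable (fun y : Fin n → ℝ =>
        c ^ 2 * (∑ i, ρ i ^ 2 / y i * (Z' i ⬝ᵥ (TT V V y)⁻¹ *ᵥ Z' i))) P :=
      (integrable_finsetSum _ fun i _ => i2 i).const_mul _
    have e1 : ∫ y, (2 * c * (∑ i, ρ i * (Z' i ⬝ᵥ (TT V V y)⁻¹ *ᵥ Z' i))
        - c ^ 2 * (∑ i, ρ i ^ 2 / y i * (Z' i ⬝ᵥ (TT V V y)⁻¹ *ᵥ Z' i))) ∂P
        ≤ ∫ y, sgm V Z' y ∂P := by
      refine integral_mono_ae (i3.sub i4) (abs_int R cS) ?_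
      filter_upwards [hae] with y hy
      exact h3 n m V Z' y ρ hy hρ hV hT0 c
    rw [integral_sub i3 i4, integral_const_mul, integral_const_mul,
      integral_finsetSum _ fun i _ => i1 i, integral_finsetSum _ fun i _ => i2 i] at e1
    have e2 : S ≤ 1076 / 1000 * ∑ i, ∫ y, ρ i * (Z' i ⬝ᵥ (TT V V y)⁻¹ *ᵥ Z' i) ∂P := by
      rw [hS, Finset.mul_sum]
      refine Finset.sum_le_sum fun i _ => ?_
      rw [integral_const_mul]
      refine (mul_le_mul_of_nonneg_left (E5 (Z' i)) (hρ i).le).trans (le_of_eq ?_)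
      ring
    have e3 : ∑ i, ∫ y, ρ i ^ 2 / y i * (Z' i ⬝ᵥ (TT V V y)⁻¹ *ᵥ Z' i) ∂P
        ≤ 1075 / 1000 * S := by
      rw [hS, Finset.mul_sum]
      refine Finset.sum_le_sum fun i _ => ?_
      refine (E6 i (Z' i)).trans (le_of_eq ?_)
      ring
    obtain ⟨X, hX⟩ : ∃ X : ℝ, X = ∑ i, ∫ y, ρ i * (Z' i ⬝ᵥ (TT V V y)⁻¹ *ᵥ Z' i) ∂P :=
      ⟨_, rfl⟩
    obtain ⟨Y, hY⟩ : ∃ Y : ℝ, Y = ∑ i, ∫ y, ρ i ^ 2 / y i * (Z' i ⬝ᵥ (TT V V y)⁻¹ *ᵥ Z' i) ∂P :=
      ⟨_, rfl⟩
    rw [← hX] at e1 e2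
    rw [← hY] at e1 e3
    have e4 : c ^ 2 * Y ≤ c ^ 2 * (1075 / 1000 * S) :=
      mul_le_mul_of_nonneg_left e3 (sq_nonneg c)
    have e5 : 2 * c * (S / (1076 / 1000)) ≤ 2 * c * X := by
      refine mul_le_mul_of_nonneg_left ?_ (by linarith)
      rw [div_le_iff₀ (by norm_num)]
      linarith
    have e6 : 8034 / 10000 * S
        ≤ 2 * c * (S / (1076 / 1000)) - c ^ 2 * (1075 / 1000 * S) := by
      have e7 : 2 * c * (S / (1076 / 1000)) - c ^ 2 * (1075 / 1000 * S)
          = (1 / ((1076 / 1000) ^ 2 * (1075 / 1000))) * S := by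
        rw [hcd]
        ring
      rw [e7]
      refine mul_le_mul_of_nonneg_right ?_ hS0
      norm_num
    linarith
  -- (d)
  have hd : ∫ y, Matrix.trace (BB V Z y * BB V Z y) ∂P
      = (∫ y, Matrix.trace (BB V Z' y * BB V Z' y) ∂P) - Matrix.trace (N * N) := by
    have i1 : Integrable (fun y => Matrix.trace (BB V Z' y * BB V Z' y)) P :=
      abs_int R (ctr Z' cB).2
    have i3 : ∀ j i : Fin m, Integrable (fun y : Fin n → ℝ => N j i * BB V Z' y i j) P :=
      fun j i => (hInt Z' i j).const_mul _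
    have i4 : Integrable (fun y : Fin n → ℝ => 2 * ∑ j, ∑ i, N j i * BB V Z' y i j) P :=
      (integrable_finsetSum _ fun j _ => integrable_finsetSum _ fun i _ => i3 j i).const_mul _
    have e1 : ∫ y, Matrix.trace (BB V Z y * BB V Z y) ∂P
        = ∫ y, (Matrix.trace (BB V Z' y * BB V Z' y)
          + (2 * (∑ j, ∑ i, N j i * BB V Z' y i j) + Matrix.trace (N * N))) ∂P := by
      refine integral_congr_ae ?_
      filter_upwards [hsh] with y hy
      have e0 : Matrix.trace (N * BB V Z' y) = ∑ j, ∑ i, N j i * BB V Z' y i j := by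
        simp only [Matrix.trace, Matrix.diag, Matrix.mul_apply]
      rw [hy.1, Matrix.add_mul, Matrix.mul_add, Matrix.mul_add, Matrix.trace_add,
        Matrix.trace_add, Matrix.trace_add, Matrix.trace_mul_comm (BB V Z' y) N, ← e0]
      ring
    have i5 : Integrable (fun y : Fin n → ℝ => 2 * (∑ j, ∑ i, N j i * BB V Z' y i j)
        + Matrix.trace (N * N)) P := i4.add (integrable_const _)
    rw [e1, integral_add i1 i5, integral_add i4 (integrable_const _), integral_const,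
      integral_const_mul,
      integral_finsetSum _ fun j _ => integrable_finsetSum _ fun i _ => i3 j i,
      probReal_univ, one_smul]
    have e2 : ∑ j, ∫ y, (∑ i, N j i * BB V Z' y i j) ∂P = -Matrix.trace (N * N) := by
      simp only [Matrix.trace, Matrix.diag, Matrix.mul_apply]
      rw [← Finset.sum_neg_distrib]
      refine Finset.sum_congr rfl fun j _ => ?_
      rw [integral_finsetSum _ fun i _ => i3 j i, ← Finset.sum_neg_distrib]
      refine Finset.sum_congr rfl fun i _ => ?_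
      rw [integral_const_mul, hBi i j]
      ring
    rw [e2]
    ring
  have hq : -Matrix.trace (N * N) ≤ Q := by
    rw [hQ]
    exact abs0_sq N
  -- (e)
  have hsg : ∫ y, sgm V Z y ∂P = ∫ y, sgm V Z' y ∂P := by
    refine integral_congr_ae ?_
    filter_upwards [hsh] with y hy
    exact hy.2
  have iT : Integrable (fun y => Matrix.trace (BB V Z y) ^ 2) P :=
    abs_int R ((ctr Z cB0).1.pow 2)
  have iS : Integrable (fun y => sgm V Z y) P := abs_int R cS0
  have iB : Integrable (fun y => Matrix.trace (BB V Z y * BB V Z y)) P :=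
    abs_int R (ctr Z cB0).2
  have hT : 0 ≤ ∫ y, Matrix.trace (BB V Z y) ^ 2 ∂P :=
    integral_nonneg fun y => sq_nonneg _
  -- (f)
  have hSp : 0 < S := by
    rcases hS0.lt_or_eq with h | h
    · exact h
    · exfalso
      have g1 : ∀ i ∈ (univ : Finset (Fin n)), ρ i * (Z' i ⬝ᵥ Z' i) = 0 := by
        rw [← Finset.sum_eq_zero_iff_of_nonneg fun i _ => mul_nonneg (hρ i).le (hzz i), ← hS]
        exact h.symm
      have g2 : Z' = 0 := by
        ext i j
        have g3 : Z' i ⬝ᵥ Z' i = 0 := by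
          rcases mul_eq_zero.1 (g1 i (mem_univ i)) with g | g
          · exact absurd g (hρ i).ne'
          · exact g
        simp only [dotProduct] at g3
        have g4 := (Finset.sum_eq_zero_iff_of_nonneg fun k _ => mul_self_nonneg (Z' i k)).1 g3 j
          (mem_univ j)
        exact mul_self_eq_zero.1 g4
      have g5 : N = 0 := by
        ext i j
        have g6 := hBi i j
        have g7 : ∀ y, BB V Z' y i j = 0 := by
          intro y
          rw [g2]
          unfold BB TT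
          rw [Matrix.mul_zero, Matrix.mul_zero, Matrix.zero_apply]
        simp only [g7, integral_zero] at g6
        rw [Matrix.zero_apply]
        linarith
      apply hZ
      rw [hZZ, g2, g5, Matrix.mul_zero, add_zero]
  refine ⟨?_, ?_⟩
  · rw [integral_add iT iS, hsg]
    linarith
  · rw [integral_sub iB iT, integral_add iT iS, hsg, hd]
    linarith

end Pool.Agent.Helper44.GH
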